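import Pool.Agent.Lib.MP_1a91b9_ntN.R.Den
import Pool.Agent.Lib.MP_1a91b9_ntN.F.Cd3
import Pool.Agent.Lib.MP_1a91b9_ntN.F.Chain3
import Pool.Agent.Lib.MP_1a91b9_nuX.LG.Iso

/-!
# MC, part Q: the rank part of the conjecture of Birch and Swinnerton-Dyer for `y² + D y = x³` over all
the finite extensions of `ℚ(√-3)` generated by cube roots: assembly
-/

set_option autoImplicit false

namespace Pool.Agent.Lib.MP_1a91b9_ntN

open NumberField IsDedekindDomain Finset WeierstrassCurve Pool.Agent.Lib.MP_1a91b9_ntT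
  Pool.Agent.Lib.MP_1a91b9_ntK Pool.Agent.Lib.MP_1a91b9_ntK2 Pool.Agent.Lib.MP_1a91b9_ntK2.D9
  Pool.Agent.Lib.MP_1a91b9_nt
open Pool.Agent.Lib.MP_1a91b9_nuX.LG (LConcl JI locPoly_iso)
open Pool.Agent.Lib.MP_1a91b9_ntH (wO s3 Nz Sx prime_s3)

noncomputable section

/-- The L-series is determined by the local polynomials. -/
theorem LSer_congr {N : Type*} [Field N] [NumberField N] {W W' : WeierstrassCurve N}
    (h : ∀ v : HeightOneSpectrum (𝓞 N), locPoly W v = locPoly W' v) : W.LSeries = W'.LSeries := by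
  have h1 : W.LFunction = W'.LFunction := by
    unfold WeierstrassCurve.LFunction
    congr 1
    funext v
    have h2 := h v
    unfold locPoly at h2
    unfold WeierstrassCurve.localEulerFactor WeierstrassCurve.localPowerSeries
    rw [h2]
  funext s
  unfold WeierstrassCurve.LSeries
  rw [h1]

theorem Wt_ji (d : 𝓞 K) (v : HeightOneSpectrum (𝓞 K)) : JI (Wt K d) v := by
  have h1 : (Wt K d).c₄ ^ 3 = 0 := by
    unfold Wt WeierstrassCurve.c₄ WeierstrassCurve.b₂ WeierstrassCurve.b₄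
    ring
  unfold JI
  rw [h1, map_zero]
  exact zero_le'

theorem Wt_iso {δ t : 𝓞 K} (ht : t ≠ 0) :
    ∃ C : VariableChange K, C • Wt K (δ * t ^ 3) = Wt K δ := by
  have ht0 : (t : K) ≠ 0 := by exact_mod_cast ht
  refine ⟨⟨Units.mk0 (t : K) ht0, 0, 0, 0⟩, ?_⟩
  have e : ((δ * t ^ 3 : 𝓞 K) : K) = (δ : K) * (t : K) ^ 3 := by
    push_cast
    rfl
  rw [Wt_K, Wt_K, e]
  ext
  · simp [variableChange_a₁]
  · simp [variableChange_a₂]
  · simp only [variableChange_a₃, Units.val_inv_eq_inv_val, Units.val_mk0]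
    field_simp
    ring
  · simp [variableChange_a₄]
  · simp [variableChange_a₆]

theorem Wt_cube {δ t : 𝓞 K} (ht : t ≠ 0) (h1 : LConcl (Wt K δ))
    (h2 : Finite (Wt K δ).toAffine.Point) :
    LConcl (Wt K (δ * t ^ 3)) ∧ Finite (Wt K (δ * t ^ 3)).toAffine.Point := by
  obtain ⟨C, hC⟩ := Wt_iso (δ := δ) ht
  refine ⟨?_, ?_⟩
  · obtain ⟨g, hg, hg1, hg2⟩ := h1
    refine ⟨g, hg, fun s hs => ?_, hg2⟩
    rw [hg1 s hs, LSer_congr fun v => locPoly_iso hC v (Wt_ji δ v)]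
  · rw [← hC] at h2
    exact Finite.of_surjective _ (vcFun_bijective (Wt K (δ * t ^ 3)) C).2

/-- **All the twists.** -/
theorem Wt_good {a d : 𝓞 K} (h : ∃ (b : Bool) (k j : Fin 3) (S T : Finset P3) (t : 𝓞 K),
    Disjoint S T ∧ t ≠ 0 ∧ a * d = pf b k j (DD3 S * DD3 T ^ 2) * t ^ 3 ∧ Gd9 k j S T) :
    LConcl (Wt K (a * d)) ∧ Finite (Wt K (a * d)).toAffine.Point := by
  obtain ⟨b, k, j, S, T, t, hST, ht, h1, hG⟩ := h
  rw [h1]
  have h2 : Pr1 (pf b k j (DD3 S * DD3 T ^ 2)) :=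
    pr1_all (b, k, j, cl3 (DD3 S * DD3 T ^ 2), cn3 (DD3 S * DD3 T ^ 2)) hST rfl rfl hG
  obtain ⟨h3, h4⟩ := h2.1 _ rfl
  exact Wt_cube ht h3 h4

/-- **The rank part over an extension generated by cube roots.** -/
theorem main_of (hJ : DSJ3) (H : ChainHyp3) (F : Type) [Field F] [NumberField F] [Algebra K F]
    (hF : IntermediateField.adjoin K {x : F | ∃ c : K, x ^ 3 = algebraMap K F c} = ⊤)
    {m u : 𝓞 K} (hm : m ∣ 9) (hu : ¬ (s3 ^ 3 ∣ m ∧ s3 ^ 3 ∣ u)) (ε : ℝ) (hε : 0 < ε) :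
    ∀ᶠ X : ℝ in Filter.atTop,
      (∏' i : ℕ, (1 + 1 / (3 : ℝ) ^ (i + 1))⁻¹) ^ Module.finrank K F - ε ≤
      (Nat.card {d : 𝓞 K // (∀ p, Prime p → ¬ p ^ 3 ∣ d) ∧ m ∣ d - u ∧ |Algebra.norm ℤ d| ≤ X ∧
        ∀ W : WeierstrassCurve F, W = ⟨0, 0, algebraMap K F (d : K), 0, 0⟩ →
          (∃ g : ℂ → ℂ, Differentiable ℂ g ∧ (∀ s : ℂ, 3 / 2 < s.re → g s = W.LSeries s) ∧
            g 1 ≠ 0) ∧ Finite W.toAffine.Point} : ℝ) /
        (Nat.card {d : 𝓞 K // (∀ p, Prime p → ¬ p ^ 3 ∣ d) ∧ m ∣ d - u ∧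
          |Algebra.norm ℤ d| ≤ X} : ℝ) := by
  obtain ⟨A, hA⟩ := MCT.exists_of hF
  have hok := hA.ok
  rw [← hok.len]
  refine den_all hJ ?_ hok.ne hok.pw hm hu _ (fun d hd h => ?_) ε hε
  · rintro rfl
    have h1 := hok.len
    rw [List.length_nil] at h1
    exact absurd h1.symm (Module.finrank_pos (R := K) (M := F)).ne'
  · have hd0 : d ≠ 0 := by
      rintro rfl
      exact (CF_iff _).1 hd s3 prime_s3 (dvd_zero _)
    rintro W rfl
    exact chain3 H hA d hd0 fun b hb => Wt_good (h b hb)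

end

end Pool.Agent.Lib.MP_1a91b9_ntN
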