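import Mathlib

/-!
# MC, part Q: transport of the theorem to an isomorphic base field, and `ℚ(ζ₃) = ℚ(ζ₆)`
-/

set_option autoImplicit false

namespace Pool.Agent.Lib.MP_1a91b9_ntN

open NumberField

noncomputable section

/-- The statement of the theorem over `K`, for `l`-th roots, for the classes `M` and the curves `w`. -/
def KD (K : Type) [Field K] [NumberField K] (l : ℕ) (M : 𝓞 K → 𝓞 K → Prop)
    (w : ∀ (F : Type) [Field F], F → WeierstrassCurve F) : Prop :=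
  ∀ (F : Type) [Field F] [NumberField F] [Algebra K F],
    IntermediateField.adjoin K {x : F | ∃ c : K, x ^ l = algebraMap K F c} = ⊤ →
    ∀ m u : 𝓞 K, M m u → ∀ ε : ℝ, 0 < ε → ∀ᶠ X : ℝ in Filter.atTop,
      (∏' i : ℕ, (1 + 1 / (l : ℝ) ^ (i + 1))⁻¹) ^ Module.finrank K F - ε ≤
      (Nat.card {d : 𝓞 K // (∀ p, Prime p → ¬ p ^ l ∣ d) ∧ m ∣ d - u ∧ |Algebra.norm ℤ d| ≤ X ∧
        ∀ W : WeierstrassCurve F, W = w F (algebraMap K F (d : K)) →
          (∃ g : ℂ → ℂ, Differentiable ℂ g ∧ (∀ s : ℂ, 3 / 2 < s.re → g s = W.LSeries s) ∧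
            g 1 ≠ 0) ∧ Finite W.toAffine.Point} : ℝ) /
        (Nat.card {d : 𝓞 K // (∀ p, Prime p → ¬ p ^ l ∣ d) ∧ m ∣ d - u ∧
          |Algebra.norm ℤ d| ≤ X} : ℝ)

theorem norm_ringEquiv {K K' : Type} [Field K] [NumberField K] [Field K'] [NumberField K']
    (e : 𝓞 K ≃+* 𝓞 K') (d : 𝓞 K) : Algebra.norm ℤ (e d) = Algebra.norm ℤ d := by
  exact (Algebra.norm_eq_of_algEquiv e.toIntAlgEquiv d)

theorem lfree_iff {K K' : Type} [Field K] [NumberField K] [Field K'] [NumberField K']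
    (e : 𝓞 K ≃+* 𝓞 K') (l : ℕ) (d : 𝓞 K) :
    (∀ p, Prime p → ¬ p ^ l ∣ e d) ↔ ∀ p, Prime p → ¬ p ^ l ∣ d := by
  constructor
  · intro h p hp hd
    refine h (e p) ((MulEquiv.prime_iff e.toMulEquiv).2 hp) ?_
    have := (map_dvd_iff e (a := p ^ l) (b := d)).2 hd
    rwa [map_pow] at this
  · intro h p hp hd
    obtain ⟨q, rfl⟩ := e.surjective p
    refine h q ((MulEquiv.prime_iff e.toMulEquiv).1 hp) ?_
    rw [← map_pow] at hd
    exact (map_dvd_iff e).1 hd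

theorem adjoin_top {K K' F : Type} [Field K] [Field K'] [Field F] [Algebra K F] [Algebra K' F]
    (h : Set.range (algebraMap K F) = Set.range (algebraMap K' F)) {S : Set F}
    (hS : IntermediateField.adjoin K' S = ⊤) : IntermediateField.adjoin K S = ⊤ := by
  have h1 : (IntermediateField.adjoin K S).toSubfield = (IntermediateField.adjoin K' S).toSubfield := by
    rw [IntermediateField.adjoin_toSubfield, IntermediateField.adjoin_toSubfield, h]
  rw [eq_top_iff]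
  intro x _
  have h2 : x ∈ (IntermediateField.adjoin K' S).toSubfield := by
    rw [hS]
    trivial
  rw [← h1] at h2
  exact h2

/-- The theorem over a field isomorphic to `K`. -/
theorem KD.equiv {K K' : Type} [Field K] [NumberField K] [Field K'] [NumberField K'] (e : K ≃+* K')
    {l : ℕ} {M : 𝓞 K → 𝓞 K → Prop} {M' : 𝓞 K' → 𝓞 K' → Prop}
    (hM : ∀ m u, M' (RingOfIntegers.mapRingEquiv e m) (RingOfIntegers.mapRingEquiv e u) → M m u)
    {w : ∀ (F : Type) [Field F], F → WeierstrassCurve F} (H : KD K l M w) : KD K' l M' w := by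
  intro F _ _ _ hF m' u' hmu ε hε
  obtain ⟨E, hE⟩ : ∃ E : 𝓞 K ≃+* 𝓞 K', E = RingOfIntegers.mapRingEquiv e := ⟨_, rfl⟩
  have hEe : ∀ d : 𝓞 K, ((E d : 𝓞 K') : K') = e (d : K) := fun d => by
    rw [hE]
    rfl
  rw [← hE] at hM
  obtain ⟨m, rfl⟩ := E.surjective m'
  obtain ⟨u, rfl⟩ := E.surjective u'
  let _ : Algebra K F := ((algebraMap K' F).comp (e : K →+* K')).toAlgebra
  have hal : ∀ x : K, algebraMap K F x = algebraMap K' F (e x) := fun _ => rfl
  have hr : Set.range (algebraMap K F) = Set.range (algebraMap K' F) := by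
    ext y
    constructor
    · rintro ⟨x, rfl⟩
      exact ⟨e x, (hal x).symm⟩
    · rintro ⟨x, rfl⟩
      exact ⟨e.symm x, by rw [hal, e.apply_symm_apply]⟩
  have hset : {x : F | ∃ c : K, x ^ l = algebraMap K F c} =
      {x : F | ∃ c : K', x ^ l = algebraMap K' F c} := by
    ext x
    constructor
    · rintro ⟨c, hc⟩
      exact ⟨e c, hc⟩
    · rintro ⟨c, hc⟩
      exact ⟨e.symm c, by rw [hal, e.apply_symm_apply]; exact hc⟩
  have h1 := H F (adjoin_top hr (by rw [hset]; exact hF)) m u (hM m u hmu) ε hε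
  have hfin : Module.finrank K F = Module.finrank K' F :=
    Algebra.finrank_eq_of_equiv_equiv e (RingEquiv.refl F) (by ext x; rfl)
  filter_upwards [h1] with X hX
  rw [← hfin]
  have c1 : Nat.card {d : 𝓞 K // (∀ p, Prime p → ¬ p ^ l ∣ d) ∧ m ∣ d - u ∧
        |Algebra.norm ℤ d| ≤ X ∧ ∀ W : WeierstrassCurve F, W = w F (algebraMap K F (d : K)) →
          (∃ g : ℂ → ℂ, Differentiable ℂ g ∧ (∀ s : ℂ, 3 / 2 < s.re → g s = W.LSeries s) ∧
            g 1 ≠ 0) ∧ Finite W.toAffine.Point} =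
      Nat.card {d : 𝓞 K' // (∀ p, Prime p → ¬ p ^ l ∣ d) ∧ E m ∣ d - E u ∧
        |Algebra.norm ℤ d| ≤ X ∧ ∀ W : WeierstrassCurve F, W = w F (algebraMap K' F (d : K')) →
          (∃ g : ℂ → ℂ, Differentiable ℂ g ∧ (∀ s : ℂ, 3 / 2 < s.re → g s = W.LSeries s) ∧
            g 1 ≠ 0) ∧ Finite W.toAffine.Point} := by
    refine Nat.card_congr (E.toEquiv.subtypeEquiv fun d => ?_)
    show _ ↔ (∀ p, Prime p → ¬ p ^ l ∣ E d) ∧ E m ∣ E d - E u ∧ |Algebra.norm ℤ (E d)| ≤ X ∧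
      ∀ W : WeierstrassCurve F, W = w F (algebraMap K' F ((E d : 𝓞 K') : K')) → _
    rw [lfree_iff, norm_ringEquiv, ← map_sub, map_dvd_iff E, hEe, hal]
  have c2 : Nat.card {d : 𝓞 K // (∀ p, Prime p → ¬ p ^ l ∣ d) ∧ m ∣ d - u ∧
        |Algebra.norm ℤ d| ≤ X} =
      Nat.card {d : 𝓞 K' // (∀ p, Prime p → ¬ p ^ l ∣ d) ∧ E m ∣ d - E u ∧
        |Algebra.norm ℤ d| ≤ X} := by
    refine Nat.card_congr (E.toEquiv.subtypeEquiv fun d => ?_)
    show _ ↔ (∀ p, Prime p → ¬ p ^ l ∣ E d) ∧ E m ∣ E d - E u ∧ |Algebra.norm ℤ (E d)| ≤ X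
    rw [lfree_iff, norm_ringEquiv, ← map_sub, map_dvd_iff E]
  rw [← c1, ← c2]
  exact hX

theorem cyc_any (n : ℕ) [NeZero n] (i : Algebra ℚ (CyclotomicField n ℚ)) :
    @IsCyclotomicExtension {n} ℚ (CyclotomicField n ℚ) _ _ i := by
  have e : i = CyclotomicField.instAlgebra n ℚ ℚ := Subsingleton.elim _ _
  rw [e]
  exact CyclotomicField.isCyclotomicExtension n ℚ

theorem cyc_three {L : Type} [Field L] [Algebra ℚ L] [IsCyclotomicExtension {6} ℚ L] :
    IsCyclotomicExtension {3} ℚ L := by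
  obtain ⟨ζ, hζ⟩ : ∃ ζ : L, IsPrimitiveRoot ζ 6 := ⟨_, IsCyclotomicExtension.zeta_spec 6 ℚ L⟩
  have h3 : IsPrimitiveRoot (ζ ^ 2) 3 := hζ.pow (by norm_num) (by norm_num)
  have h6 : Algebra.adjoin ℚ {ζ} = ⊤ := IsCyclotomicExtension.adjoin_primitive_root_eq_top hζ
  rw [IsCyclotomicExtension.iff_adjoin_eq_top]
  refine ⟨fun n hn _ => ⟨ζ ^ 2, by rw [Set.mem_singleton_iff.1 hn]; exact h3⟩, ?_⟩
  rw [eq_top_iff, ← h6]
  apply Algebra.adjoin_le
  intro x hx
  rw [Set.mem_singleton_iff] at hx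
  subst hx
  have h2 : x ^ 3 = -1 := by
    have h4 : (x ^ 3 - 1) * (x ^ 3 + 1) = 0 := by
      have := hζ.pow_eq_one
      linear_combination this
    rcases mul_eq_zero.1 h4 with h5 | h5
    · have := hζ.dvd_of_pow_eq_one 3 (sub_eq_zero.1 h5)
      omega
    · exact eq_neg_of_add_eq_zero_left h5
  have h7 : x = -(x ^ 2) ^ 2 := by linear_combination x * h2
  have h8 : x ^ 2 ∈ Algebra.adjoin ℚ {b : L | ∃ n ∈ ({3} : Set ℕ), n ≠ 0 ∧ b ^ n = 1} :=
    Algebra.subset_adjoin ⟨3, rfl, by norm_num, h3.pow_eq_one⟩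
  rw [h7]
  exact neg_mem (pow_mem h8 2)

/-- `ℚ(ζ₃)` and `ℚ(ζ₆)` are isomorphic. -/
theorem exists_iso36 : Nonempty (CyclotomicField 3 ℚ ≃+* CyclotomicField 6 ℚ) := by
  have h1 := cyc_any 3 inferInstance
  have h2 := cyc_any 6 inferInstance
  have h3 : IsCyclotomicExtension {3} ℚ (CyclotomicField 6 ℚ) := cyc_three
  exact ⟨(IsCyclotomicExtension.algEquiv {3} ℚ (CyclotomicField 3 ℚ)
    (CyclotomicField 6 ℚ)).toRingEquiv⟩

end

end Pool.Agent.Lib.MP_1a91b9_ntN
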