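import Pool.Agent.Lib.MP_1a91b9_ntN.Q.Main
import Pool.Agent.Lib.MP_1a91b9_ntN.DJ.Gd
import Pool.Agent.Lib.MP_1a91b9_ntN.F.Fin3

/-!
# MC, part Q: the rank part of the conjecture of Birch and Swinnerton-Dyer for `y² + D y = x³` over all
the finite extensions of `ℚ(√-3)` generated by cube roots: the theorem
-/

set_option autoImplicit false

namespace Pool.Agent.Lib.MP_1a91b9_ntN

open NumberField Finset WeierstrassCurve Pool.Agent.Lib.MP_1a91b9_ntT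
  Pool.Agent.Lib.MP_1a91b9_ntK Pool.Agent.Lib.MP_1a91b9_ntK2 Pool.Agent.Lib.MP_1a91b9_ntK2.D9
open Pool.Agent.Lib.MP_1a91b9_ntH (wO s3 Nz Sx prime_s3)

noncomputable section

/-- **The rank part over an extension generated by cube roots.** -/
theorem main_mc (F : Type) [Field F] [NumberField F] [Algebra K F]
    (hF : IntermediateField.adjoin K {x : F | ∃ c : K, x ^ 3 = algebraMap K F c} = ⊤)
    {m u : 𝓞 K} (hm : m ∣ 9) (hu : ¬ (s3 ^ 3 ∣ m ∧ s3 ^ 3 ∣ u)) (ε : ℝ) (hε : 0 < ε) :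
    ∀ᶠ X : ℝ in Filter.atTop,
      (∏' i : ℕ, (1 + 1 / (3 : ℝ) ^ (i + 1))⁻¹) ^ Module.finrank K F - ε ≤
      (Nat.card {d : 𝓞 K // (∀ p, Prime p → ¬ p ^ 3 ∣ d) ∧ m ∣ d - u ∧ |Algebra.norm ℤ d| ≤ X ∧
        ∀ W : WeierstrassCurve F, W = ⟨0, 0, algebraMap K F (d : K), 0, 0⟩ →
          (∃ g : ℂ → ℂ, Differentiable ℂ g ∧ (∀ s : ℂ, 3 / 2 < s.re → g s = W.LSeries s) ∧
            g 1 ≠ 0) ∧ Finite W.toAffine.Point} : ℝ) /
        (Nat.card {d : 𝓞 K // (∀ p, Prime p → ¬ p ^ 3 ∣ d) ∧ m ∣ d - u ∧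
          |Algebra.norm ℤ d| ≤ X} : ℝ) :=
  main_of dsj3 chainHyp3 F hF hm hu ε hε

end

end Pool.Agent.Lib.MP_1a91b9_ntN
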