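import Pool.Agent.Lib.MP_1a91b9_ntN.Q.Uni
import Pool.Agent.Lib.MP_1a91b9_ntN.Q.Fin
import Pool.Agent.Lib.MP_1a91b9_ntM.Q.Fin

/-!
# The rank part of the conjecture of Birch and Swinnerton-Dyer over all the finite extensions of exponent
`l` of `ℚ(ζ)`, `ζ` of order `2 l`, for `l = 2` and `l = 3`
-/

set_option autoImplicit false

namespace Pool.Agent.Lib.MP_1a91b9_ntN

open NumberField

noncomputable section

/-- **The theorem for `l = 2` and `l = 3`.** -/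
theorem main_kummer (l k : ℕ) (hl : l = 2 ∧ k = 4 ∨ l = 3 ∧ k = 6) :
    KD (CyclotomicField k ℚ) l
    (fun m u => (∃ n : ℕ, (l = 3 → n ≤ 2) ∧ m ∣ (l : 𝓞 (CyclotomicField k ℚ)) ^ n) ∧
      ∀ p, Prime p → ¬ (p ^ l ∣ m ∧ p ^ l ∣ u))
    (fun F _ d => ⟨0, 0, ((l : F) - 2) * d, ((l : F) - 3) * d ^ 2, 0⟩) :=
  main_kummer_of (kd_two fun F _ _ _ hF _ _ _ hm hu ε hε =>
      Pool.Agent.Lib.MP_1a91b9_ntM.main_mq F hF hm hu ε hε)
    (kd_three fun F _ _ _ hF _ _ hm hu ε hε => main_mc F hF hm hu ε hε) l k hl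

end

end Pool.Agent.Lib.MP_1a91b9_ntN
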