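import Pool.Agent.Lib.MP_1a91b9_ntN.Q.Iso
import Pool.Agent.Lib.MP_1a91b9_ntN.R.Defs
import Pool.Agent.Lib.MP_1a91b9_ntQ.R.Ring4

/-!
# The two theorems over `ℚ(ζ₄)` and `ℚ(ζ₆)` in one form
-/

set_option autoImplicit false

namespace Pool.Agent.Lib.MP_1a91b9_ntN

open NumberField

noncomputable section

open Pool.Agent.Lib.MP_1a91b9_ntQ (K4 lam iO iO_sq lam_sq prime_lam) in
/-- The form of the theorem over `ℚ(i)` (`H`) with the classes given by prime elements. -/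
theorem kd_two (H : ∀ (F : Type) [Field F] [NumberField F] [Algebra K4 F],
    IntermediateField.adjoin K4 {x : F | ∃ c : K4, x ^ 2 = algebraMap K4 F c} = ⊤ →
    ∀ {n : ℕ} {m u : 𝓞 K4}, m ∣ 2 ^ n → ¬ ((2 : 𝓞 K4) ∣ m ∧ (2 : 𝓞 K4) ∣ u) →
    ∀ ε : ℝ, 0 < ε → ∀ᶠ X : ℝ in Filter.atTop,
      (∏' i : ℕ, (1 + 1 / (2 : ℝ) ^ (i + 1))⁻¹) ^ Module.finrank K4 F - ε ≤
      (Nat.card {d : 𝓞 K4 // Squarefree d ∧ m ∣ d - u ∧ |Algebra.norm ℤ d| ≤ X ∧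
        ∀ W : WeierstrassCurve F, W = ⟨0, 0, 0, -(algebraMap K4 F (d : K4)) ^ 2, 0⟩ →
          (∃ g : ℂ → ℂ, Differentiable ℂ g ∧ (∀ s : ℂ, 3 / 2 < s.re → g s = W.LSeries s) ∧
            g 1 ≠ 0) ∧ Finite W.toAffine.Point} : ℝ) /
        (Nat.card {d : 𝓞 K4 // Squarefree d ∧ m ∣ d - u ∧ |Algebra.norm ℤ d| ≤ X} : ℝ)) :
    KD K4 2 (fun m u => (∃ n : ℕ, m ∣ 2 ^ n) ∧ ∀ p, Prime p → ¬ (p ^ 2 ∣ m ∧ p ^ 2 ∣ u))
    (fun _ _ d => ⟨0, 0, 0, -d ^ 2, 0⟩) := by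
  intro F _ _ _ hF m u hmu ε hε
  obtain ⟨⟨n, hm⟩, hu⟩ := hmu
  have h2 : ¬ ((2 : 𝓞 K4) ∣ m ∧ (2 : 𝓞 K4) ∣ u) := by
    rintro ⟨h3, h4⟩
    have e : lam ^ 2 ∣ (2 : 𝓞 K4) := ⟨-iO, by linear_combination iO * lam_sq + 2 * iO_sq⟩
    exact hu lam prime_lam ⟨e.trans h3, e.trans h4⟩
  have h := H F hF hm h2 ε hε
  have hs : ∀ d : 𝓞 K4, Squarefree d ↔ ∀ p, Prime p → ¬ p ^ 2 ∣ d := by
    intro d
    constructor
    · intro hd p hp h1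
      rw [pow_two] at h1
      exact hp.not_isUnit (hd p h1)
    · intro hd x hx
      by_contra hu
      have hx0 : x ≠ 0 := by
        rintro rfl
        rw [mul_zero, zero_dvd_iff] at hx
        subst hx
        exact hd lam prime_lam (dvd_zero _)
      obtain ⟨p, hp, hpx⟩ := WfDvdMonoid.exists_irreducible_factor hu hx0
      exact hd p hp.prime (by rw [pow_two]; exact (mul_dvd_mul hpx hpx).trans hx)
  simp only [hs] at h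
  rw [show ((2 : ℕ) : ℝ) = 2 from Nat.cast_ofNat]
  exact h

open Pool.Agent.Lib.MP_1a91b9_ntT (K) in
open Pool.Agent.Lib.MP_1a91b9_ntH (s3 prime_s3) in
/-- The form of the theorem over `ℚ(√-3)` (`H`) with the classes given by prime elements. -/
theorem kd_three (H : ∀ (F : Type) [Field F] [NumberField F] [Algebra K F],
    IntermediateField.adjoin K {x : F | ∃ c : K, x ^ 3 = algebraMap K F c} = ⊤ →
    ∀ {m u : 𝓞 K}, m ∣ 9 → ¬ (s3 ^ 3 ∣ m ∧ s3 ^ 3 ∣ u) →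
    ∀ ε : ℝ, 0 < ε → ∀ᶠ X : ℝ in Filter.atTop,
      (∏' i : ℕ, (1 + 1 / (3 : ℝ) ^ (i + 1))⁻¹) ^ Module.finrank K F - ε ≤
      (Nat.card {d : 𝓞 K // (∀ p, Prime p → ¬ p ^ 3 ∣ d) ∧ m ∣ d - u ∧ |Algebra.norm ℤ d| ≤ X ∧
        ∀ W : WeierstrassCurve F, W = ⟨0, 0, algebraMap K F (d : K), 0, 0⟩ →
          (∃ g : ℂ → ℂ, Differentiable ℂ g ∧ (∀ s : ℂ, 3 / 2 < s.re → g s = W.LSeries s) ∧
            g 1 ≠ 0) ∧ Finite W.toAffine.Point} : ℝ) /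
        (Nat.card {d : 𝓞 K // (∀ p, Prime p → ¬ p ^ 3 ∣ d) ∧ m ∣ d - u ∧
          |Algebra.norm ℤ d| ≤ X} : ℝ)) :
    KD K 3 (fun m u => m ∣ 9 ∧ ∀ p, Prime p → ¬ (p ^ 3 ∣ m ∧ p ^ 3 ∣ u))
    (fun _ _ d => ⟨0, 0, d, 0, 0⟩) := by
  intro F _ _ _ hF m u hmu ε hε
  have h := H F hF hmu.1 (hmu.2 _ prime_s3) ε hε
  rw [show ((3 : ℕ) : ℝ) = 3 from Nat.cast_ofNat]
  exact h

theorem KD.mono {K : Type} [Field K] [NumberField K] {l : ℕ} {M M' : 𝓞 K → 𝓞 K → Prop}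
    {w w' : ∀ (F : Type) [Field F], F → WeierstrassCurve F} (H : KD K l M w)
    (hM : ∀ m u, M' m u → M m u) (hw : ∀ (F : Type) [Field F] (d : F), w' F d = w F d) :
    KD K l M' w' := by
  intro F _ _ _ hF m u hmu ε hε
  have h := H F hF m u (hM m u hmu) ε hε
  simp only [hw]
  exact h

theorem npow_of_equiv {R R' : Type} [CommRing R] [CommRing R'] (E : R ≃+* R') {l : ℕ} {m u : R}
    (h : ∀ p, Prime p → ¬ (p ^ l ∣ E m ∧ p ^ l ∣ E u)) :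
    ∀ p, Prime p → ¬ (p ^ l ∣ m ∧ p ^ l ∣ u) := by
  rintro p hp ⟨h1, h2⟩
  refine h (E p) ((MulEquiv.prime_iff E.toMulEquiv).2 hp) ⟨?_, ?_⟩
  · rw [← map_pow]
    exact (map_dvd_iff E).2 h1
  · rw [← map_pow]
    exact (map_dvd_iff E).2 h2

/-- **The two theorems in one form.** -/
theorem main_kummer_of
    (H2 : KD Pool.Agent.Lib.MP_1a91b9_ntQ.K4 2
      (fun m u => (∃ n : ℕ, m ∣ 2 ^ n) ∧ ∀ p, Prime p → ¬ (p ^ 2 ∣ m ∧ p ^ 2 ∣ u))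
      (fun _ _ d => ⟨0, 0, 0, -d ^ 2, 0⟩))
    (H3 : KD Pool.Agent.Lib.MP_1a91b9_ntT.K 3
      (fun m u => m ∣ 9 ∧ ∀ p, Prime p → ¬ (p ^ 3 ∣ m ∧ p ^ 3 ∣ u))
      (fun _ _ d => ⟨0, 0, d, 0, 0⟩))
    (l k : ℕ) (hl : l = 2 ∧ k = 4 ∨ l = 3 ∧ k = 6) :
    KD (CyclotomicField k ℚ) l
    (fun m u => (∃ n : ℕ, (l = 3 → n ≤ 2) ∧ m ∣ (l : 𝓞 (CyclotomicField k ℚ)) ^ n) ∧
      ∀ p, Prime p → ¬ (p ^ l ∣ m ∧ p ^ l ∣ u))
    (fun F _ d => ⟨0, 0, ((l : F) - 2) * d, ((l : F) - 3) * d ^ 2, 0⟩) := by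
  rcases hl with ⟨rfl, rfl⟩ | ⟨rfl, rfl⟩
  · refine KD.mono (H2.equiv (K' := CyclotomicField 4 ℚ)
      (RingEquiv.refl (CyclotomicField 4 ℚ) : Pool.Agent.Lib.MP_1a91b9_ntQ.K4 ≃+* _)
      (M' := fun m u => (∃ n : ℕ, m ∣ 2 ^ n) ∧ ∀ p, Prime p → ¬ (p ^ 2 ∣ m ∧ p ^ 2 ∣ u))
      (fun m u hmu => ?_)) (fun m u hmu => ?_) fun F _ d => ?_
    · obtain ⟨⟨n, hn⟩, h2⟩ := hmu
      refine ⟨⟨n, ?_⟩, npow_of_equiv _ h2⟩
      have e : (2 : 𝓞 (CyclotomicField 4 ℚ)) ^ n = RingOfIntegers.mapRingEquiv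
          (RingEquiv.refl (CyclotomicField 4 ℚ) : Pool.Agent.Lib.MP_1a91b9_ntQ.K4 ≃+* _) (2 ^ n) := by
        rw [map_pow, map_ofNat]
      rw [e, map_dvd_iff] at hn
      exact hn
    · obtain ⟨⟨n, _, hn⟩, h2⟩ := hmu
      refine ⟨⟨n, ?_⟩, h2⟩
      rw [Nat.cast_ofNat] at hn
      exact hn
    · rw [Nat.cast_ofNat]
      ext
      · rfl
      · rfl
      · show ((2 : F) - 2) * d = 0
        ring
      · show ((2 : F) - 3) * d ^ 2 = -d ^ 2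
        ring
      · rfl
  · obtain ⟨e⟩ := exists_iso36
    refine KD.mono (H3.equiv (K' := CyclotomicField 6 ℚ) (e : Pool.Agent.Lib.MP_1a91b9_ntT.K ≃+* _)
      (M' := fun m u => m ∣ 9 ∧ ∀ p, Prime p → ¬ (p ^ 3 ∣ m ∧ p ^ 3 ∣ u))
      (fun m u hmu => ?_)) (fun m u hmu => ?_) fun F _ d => ?_
    · obtain ⟨hn, h2⟩ := hmu
      refine ⟨?_, npow_of_equiv _ h2⟩
      have e1 : (9 : 𝓞 (CyclotomicField 6 ℚ)) = RingOfIntegers.mapRingEquiv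
          (e : Pool.Agent.Lib.MP_1a91b9_ntT.K ≃+* _) 9 := by
        rw [map_ofNat]
      rw [e1, map_dvd_iff] at hn
      exact hn
    · obtain ⟨⟨n, h3, hn⟩, h2⟩ := hmu
      refine ⟨?_, h2⟩
      rw [Nat.cast_ofNat] at hn
      have h4 : (3 : 𝓞 (CyclotomicField 6 ℚ)) ^ n ∣ 9 := by
        have e1 : (9 : 𝓞 (CyclotomicField 6 ℚ)) = 3 ^ 2 := by norm_num
        rw [e1]
        exact pow_dvd_pow _ (h3 rfl)
      exact hn.trans h4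
    · rw [Nat.cast_ofNat]
      ext
      · rfl
      · rfl
      · show ((3 : F) - 2) * d = d
        ring
      · show ((3 : F) - 3) * d ^ 2 = 0
        ring
      · rfl

end

end Pool.Agent.Lib.MP_1a91b9_ntN
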